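import Pool.Agent.R50.MC.Round

set_option autoImplicit false

/-!
# Large cuts
-/

namespace Pool.Agent.R50.MC

open Finset Pool.Agent.Y394.AT

variable {V : Type} [Fintype V] {G : SimpleGraph V}

open Classical in
/-- deleting few vertices deletes few edges -/
theorem sum_del {d : ℝ} (hdeg : ∀ v, ((nb G v).card : ℝ) ≤ d) (U : Finset V) :
    ∑ v, ((nb G v).card : ℝ) - 2 * d * ((univ \ U).card : ℝ) ≤
      ∑ v ∈ U, ((nb G v ∩ U).card : ℝ) := by
  have h1 : ∑ v, ((nb G v).card : ℝ) = ∑ v, ∑ w, if G.Adj v w then (1 : ℝ) else 0 := by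
    apply Finset.sum_congr rfl
    intro v _
    rw [← Finset.sum_filter, Finset.sum_const, nsmul_eq_mul, mul_one]
    congr 2
  have h2 : ∑ v ∈ U, ((nb G v ∩ U).card : ℝ) =
      ∑ v, ∑ w, if G.Adj v w ∧ v ∈ U ∧ w ∈ U then (1 : ℝ) else 0 := by
    have h3 : ∀ v, ∑ w, (if G.Adj v w ∧ v ∈ U ∧ w ∈ U then (1 : ℝ) else 0) =
        if v ∈ U then ((nb G v ∩ U).card : ℝ) else 0 := by
      intro v
      by_cases hv : v ∈ U
      · rw [if_pos hv, ← Finset.sum_filter, Finset.sum_const, nsmul_eq_mul, mul_one]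
        congr 2
        ext w
        simp only [Finset.mem_filter, Finset.mem_univ, true_and, Finset.mem_inter, mem_nb]
        tauto
      · rw [if_neg hv]
        apply Finset.sum_eq_zero
        intro w _
        rw [if_neg (fun h => hv h.2.1)]
    rw [Finset.sum_congr rfl (fun v _ => h3 v), ← Finset.sum_filter]
    simp
  have h4 : ∀ v w, (if G.Adj v w then (1 : ℝ) else 0) ≤
      (if G.Adj v w ∧ v ∈ U ∧ w ∈ U then (1 : ℝ) else 0) +
        (if G.Adj v w then ((if v ∈ U then 0 else 1) + (if w ∈ U then 0 else 1)) else 0) := by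
    intro v w
    by_cases h : G.Adj v w
    · by_cases hv : v ∈ U
      · by_cases hw : w ∈ U
        · simp [h, hv, hw]
        · simp [h, hv, hw]
      · by_cases hw : w ∈ U
        · simp [h, hv, hw]
        · simp [h, hv, hw]
    · simp [h]
  have h5 : ∑ v, ((nb G v).card : ℝ) ≤ ∑ v ∈ U, ((nb G v ∩ U).card : ℝ) +
      2 * ∑ v, ((nb G v).card : ℝ) * (if v ∈ U then 0 else 1) := by
    rw [← sum_adj, h1, h2, ← Finset.sum_add_distrib]
    apply Finset.sum_le_sum
    intro v _
    rw [← Finset.sum_add_distrib]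
    exact Finset.sum_le_sum fun w _ => h4 v w
  have h6 : ∑ v, ((nb G v).card : ℝ) * (if v ∈ U then 0 else 1) ≤ d * ((univ \ U).card : ℝ) := by
    have h7 : ∀ v, ((nb G v).card : ℝ) * (if v ∈ U then 0 else 1) =
        if v ∈ univ \ U then ((nb G v).card : ℝ) else 0 := by
      intro v
      by_cases hv : v ∈ U
      · simp [hv]
      · simp [hv]
    rw [Finset.sum_congr rfl (fun v _ => h7 v), ← Finset.sum_filter, mul_comm, ← nsmul_eq_mul,
      ← Finset.sum_const]
    have h8 : (univ : Finset V).filter (fun v => v ∈ univ \ U) = univ \ U := by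
      ext v
      simp
    rw [h8]
    exact Finset.sum_le_sum fun v _ => hdeg v
  linarith

/-- **Main theorem, form version.** -/
theorem main_form (m k : ℕ) (T : SimpleGraph (Fin (m + 1))) (hT : T.IsTree) (K : ℝ)
    (hK : 1 ≤ K) :
    ∃ c : ℝ, 0 < c ∧ ∀ (V : Type) [Fintype V] (G : SimpleGraph V) (d : ℝ), Nonempty V → 0 < d →
      (∀ v, ((nb G v).card : ℝ) ≤ d) → d * Fintype.card V ≤ K * ∑ v, ((nb G v).card : ℝ) →
      G.CliqueFree (k + 1) → IsEmpty (T ↪g G) →
      ∃ s : V → ℝ, (∀ v, s v = 1 ∨ s v = -1) ∧ q G s ≤ -(c * d * Fintype.card V) := by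
  classical
  obtain ⟨η, hηd⟩ : ∃ η : ℝ, η = 1 / (4 * K) := ⟨_, rfl⟩
  have hK0 : 0 < K := by linarith
  have hη : 0 < η := by rw [hηd]; positivity
  have hη1 : η ≤ 1 / 4 := by
    rw [hηd]
    apply one_div_le_one_div_of_le
    · norm_num
    · linarith
  obtain ⟨ε, hε, hloc⟩ := local_thm m T hT k (1 / (2 * K)) (by positivity)
  refine ⟨ε ^ 2 * η ^ 2 / 192, by positivity, ?_⟩
  intro V _ G d hV hd hdeg hK2 hfree hemp
  have hn : 0 < (Fintype.card V : ℝ) := by exact_mod_cast Fintype.card_pos
  have hK3 : 4 * η * d * Fintype.card V ≤ ∑ v, ((nb G v).card : ℝ) := by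
    have h1 : 4 * η * d * Fintype.card V = d * Fintype.card V / K := by
      rw [hηd]
      field_simp
    rw [h1, div_le_iff₀ hK0]
    linarith
  -- negative directions on all large sets
  have hU : ∀ U : Finset V, ((univ \ U).card : ℝ) ≤ η * Fintype.card V →
      ∃ f : V → ℝ, (∀ v, v ∉ U → f v = 0) ∧ (∃ v, f v ≠ 0) ∧ q G f ≤ -(ε * d) * N2 f := by
    intro U hUc
    have h1 := sum_del hdeg U
    have h2 : U.Nonempty := by
      by_contra hcon
      rw [Finset.not_nonempty_iff_eq_empty] at hcon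
      rw [hcon, Finset.sdiff_empty, Finset.card_univ] at hUc
      nlinarith
    obtain ⟨u, hu⟩ := h2
    by_contra hcon
    push Not at hcon
    have h3 := hloc {x // x ∈ U} (ind G U) d ⟨⟨u, hu⟩⟩ hd
      (by
        intro v
        rw [nb_ind]
        refine le_trans ?_ (hdeg v.1)
        exact_mod_cast Finset.card_le_card Finset.inter_subset_left)
      (hfree.comap ⟨(indEmb G U).toCopy⟩)
      ⟨fun g => hemp.false (g.trans (indEmb G _))⟩
      (by
        intro f
        rw [← N2_ext, ← q_ext]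
        by_cases h4 : ∃ v, ext0 U f v ≠ 0
        · exact (hcon (ext0 U f) (fun v hv => ext0_not U f hv) h4).le
        · push Not at h4
          have h5 : ext0 U f = fun _ => 0 := funext h4
          rw [h5]
          unfold q bb N2
          simp)
    have h4 : ∑ x ∈ U, ((nb G x ∩ U).card : ℝ) =
        ∑ v : {x // x ∈ U}, ((nb (ind G U) v).card : ℝ) := by
      rw [← Finset.sum_coe_sort U]
      apply Finset.sum_congr rfl
      intro v _
      rw [nb_ind]
    rw [← h4, Fintype.card_coe] at h3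
    have h5 : (U.card : ℝ) ≤ Fintype.card V := by exact_mod_cast Finset.card_le_univ U
    have h6 : 1 / (2 * K) * d * (U.card : ℝ) ≤ 2 * η * d * Fintype.card V := by
      have h7 : 1 / (2 * K) = 2 * η := by
        rw [hηd]
        field_simp
        norm_num
      rw [h7]
      exact mul_le_mul_of_nonneg_left h5 (by positivity)
    have h7 : 2 * d * ((univ \ U).card : ℝ) ≤ 2 * d * (η * Fintype.card V) :=
      mul_le_mul_of_nonneg_left hUc (by positivity)
    linarith
  obtain ⟨L, hL1, hL2, hL3⟩ := greedy (e := ε * d) hη hU (2 * Fintype.card V + 2)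
  have hsum : (L.map N2).sum = ∑ v, (L.map (fun b => b v ^ 2)).sum := by
    clear hL1 hL2 hL3
    induction L with
    | nil => simp
    | cons b L ih =>
      rw [List.map_cons, List.sum_cons, ih]
      simp only [List.map_cons, List.sum_cons]
      rw [Finset.sum_add_distrib]
      rfl
  have hL4 : η / 2 * Fintype.card V ≤ (L.map N2).sum := by
    rcases hL3 with h | h
    · exact h
    · exfalso
      have h1 : (L.map N2).sum ≤ Fintype.card V := by
        rw [hsum]
        calc ∑ v, (L.map (fun b => b v ^ 2)).sum ≤ ∑ v : V, (1 : ℝ) :=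
              Finset.sum_le_sum fun v _ => hL1 v
          _ = Fintype.card V := by simp
      push_cast at h
      linarith
  have hnn : ∀ v, 0 ≤ (L.map (fun b => b v ^ 2)).sum := by
    intro v
    apply List.sum_nonneg
    intro x hx
    rw [List.mem_map] at hx
    obtain ⟨b, _, rfl⟩ := hx
    positivity
  obtain ⟨M, hMd⟩ : ∃ M : ℝ, M = Real.sqrt (48 / (ε * η)) := ⟨_, rfl⟩
  have hM2 : M ^ 2 = 48 / (ε * η) := by
    rw [hMd, Real.sq_sqrt (by positivity)]
  have hM : 0 < M := by
    rw [hMd]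
    exact Real.sqrt_pos.2 (by positivity)
  obtain ⟨g, hg⟩ := signs (G := G) (fun v => 4 * ((nb G v).card : ℝ) / M ^ 2)
    (fun v => by positivity) L (fun _ => 0)
  have hq0 : q G (fun _ => 0) = 0 := by
    unfold q bb
    simp
  have hP : ∑ v, (4 * ((nb G v).card : ℝ) / M ^ 2) * P4 0 ((L.map (fun b => b v ^ 2)).sum) ≤
      ε * η / 4 * d * Fintype.card V := by
    have h1 : ∀ v ∈ (univ : Finset V), (4 * ((nb G v).card : ℝ) / M ^ 2) *
        P4 0 ((L.map (fun b => b v ^ 2)).sum) ≤ ε * η / 4 * d := by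
      intro v _
      have h2 : P4 0 ((L.map (fun b => b v ^ 2)).sum) ≤ 3 := by
        unfold P4
        have := hL1 v
        nlinarith [hnn v]
      have h3 : 4 * ((nb G v).card : ℝ) / M ^ 2 ≤ ε * η / 12 * d := by
        rw [hM2, div_div_eq_mul_div, div_le_iff₀ (by norm_num)]
        have := mul_le_mul_of_nonneg_left (hdeg v) (show 0 ≤ 4 * (ε * η) by positivity)
        linarith
      calc (4 * ((nb G v).card : ℝ) / M ^ 2) * P4 0 ((L.map (fun b => b v ^ 2)).sum) ≤
            (4 * ((nb G v).card : ℝ) / M ^ 2) * 3 :=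
            mul_le_mul_of_nonneg_left h2 (by positivity)
        _ ≤ ε * η / 12 * d * 3 := by linarith
        _ = ε * η / 4 * d := by ring
    refine (Finset.sum_le_sum h1).trans (le_of_eq ?_)
    rw [Finset.sum_const, nsmul_eq_mul, Finset.card_univ]
    ring
  rw [hq0, zero_add] at hg
  have hc := q_clip (G := G) hM g
  have hqL : (L.map (q G)).sum ≤ -(ε * η / 2 * d * Fintype.card V) := by
    refine hL2.trans ?_
    have h1 := mul_le_mul_of_nonneg_left hL4 (show 0 ≤ ε * d by positivity)
    linarith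
  have hqc : q G (fun v => clip M (g v)) ≤ -(ε * η / 4 * d * Fintype.card V) := by
    have e1 : ε * η / 2 * d * Fintype.card V =
      ε * η / 4 * d * Fintype.card V + ε * η / 4 * d * Fintype.card V := by ring
    linarith
  -- scale and round
  have hy : ∀ v, |M⁻¹ * clip M (g v)| ≤ 1 := by
    intro v
    rw [abs_mul, abs_of_pos (inv_pos.2 hM), inv_mul_le_iff₀ hM, mul_one]
    exact clip_abs hM _
  obtain ⟨s, _, hs2, hs3⟩ := round (G := G) univ (fun v => M⁻¹ * clip M (g v)) hy
  refine ⟨s, fun v => hs2 v (Finset.mem_univ v), hs3.trans ?_⟩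
  have hqa : q G (fun v => M⁻¹ * clip M (g v)) = (M ^ 2)⁻¹ * q G (fun v => clip M (g v)) := by
    unfold q
    rw [bb_smul_left, bb_comm, bb_smul_left]
    field_simp
  rw [hqa]
  have h1 := mul_le_mul_of_nonneg_left hqc (show 0 ≤ (M ^ 2)⁻¹ by positivity)
  refine h1.trans (le_of_eq ?_)
  rw [hM2]
  field_simp
  ring

end Pool.Agent.R50.MC
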