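import Pool.Agent.R50.MC.Spec
import Pool.Agent.Y394.AT.Embed

set_option autoImplicit false

/-!
# Graphs whose adjacency form is bounded below
-/

namespace Pool.Agent.R50.MC

open Finset Pool.Agent.Y394.AT

variable {V : Type} [Fintype V] {G : SimpleGraph V}

open Classical in
theorem sum_erase_nb (U : Finset V) {v : V} (hv : v ∈ U) :
    ∑ w ∈ U, ((nb G w ∩ U).card : ℝ) =
      ∑ w ∈ U.erase v, ((nb G w ∩ U.erase v).card : ℝ) + 2 * ((nb G v ∩ U).card : ℝ) := by
  rw [← Finset.sum_erase_add U _ hv]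
  have h1 : ∀ w ∈ U.erase v, ((nb G w ∩ U).card : ℝ) =
      ((nb G w ∩ U.erase v).card : ℝ) + if w ∈ nb G v then 1 else 0 := by
    intro w hw
    by_cases h : w ∈ nb G v
    · rw [if_pos h]
      have : nb G w ∩ U = insert v (nb G w ∩ U.erase v) := by
        ext y
        simp only [Finset.mem_inter, Finset.mem_insert, Finset.mem_erase, mem_nb]
        constructor
        · rintro ⟨h2, h3⟩
          by_cases h4 : y = v
          · exact Or.inl h4
          · exact Or.inr ⟨h2, h4, h3⟩
        · rintro (rfl | ⟨h2, h3, h4⟩)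
          · exact ⟨((mem_nb G _ _).1 h).symm, hv⟩
          · exact ⟨h2, h4⟩
      rw [this, Finset.card_insert_of_notMem]
      · push_cast
        ring
      · simp
    · rw [if_neg h, add_zero]
      congr 2
      ext y
      simp only [Finset.mem_inter, Finset.mem_erase, mem_nb]
      constructor
      · rintro ⟨h2, h3⟩
        refine ⟨h2, ?_, h3⟩
        rintro rfl
        exact h ((mem_nb G _ _).2 h2.symm)
      · rintro ⟨h2, h3, h4⟩
        exact ⟨h2, h4⟩
  rw [Finset.sum_congr rfl h1, Finset.sum_add_distrib]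
  have h2 : ∑ w ∈ U.erase v, (if w ∈ nb G v then (1 : ℝ) else 0) = ((nb G v ∩ U).card : ℝ) := by
    rw [← Finset.sum_filter, Finset.sum_const, nsmul_eq_mul, mul_one]
    congr 2
    ext y
    simp only [Finset.mem_filter, Finset.mem_erase, Finset.mem_inter, mem_nb]
    constructor
    · rintro ⟨⟨h2, h3⟩, h4⟩
      exact ⟨h4, h3⟩
    · rintro ⟨h2, h3⟩
      exact ⟨⟨fun h => by subst h; exact G.irrefl h2, h3⟩, h2⟩
  rw [h2]
  ring

open Classical in
theorem prune {d c : ℝ} (hV : Nonempty V) (hc : 0 < c) (hd : 0 < d)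
    (h : c * d * Fintype.card V ≤ ∑ v, ((nb G v).card : ℝ)) :
    ∃ U : Finset V, U.Nonempty ∧ ∀ v ∈ U, c * d / 2 ≤ ((nb G v ∩ U).card : ℝ) := by
  obtain ⟨P, hP⟩ : ∃ P : Finset V → Prop, P = fun U => U.Nonempty ∧
      c * d * U.card ≤ ∑ v ∈ U, ((nb G v ∩ U).card : ℝ) := ⟨_, rfl⟩
  have h0 : P Finset.univ := by
    rw [hP]
    refine ⟨Finset.univ_nonempty, ?_⟩
    simp only [Finset.inter_univ]
    rw [Finset.card_univ]
    exact h
  obtain ⟨U, hU, hmin⟩ := Finset.exists_min_image
    ((Finset.univ : Finset (Finset V)).filter P) Finset.card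
    ⟨Finset.univ, Finset.mem_filter.2 ⟨Finset.mem_univ _, h0⟩⟩
  have hPU := (Finset.mem_filter.1 hU).2
  have hPU' : U.Nonempty ∧ c * d * U.card ≤ ∑ v ∈ U, ((nb G v ∩ U).card : ℝ) := by
    rw [hP] at hPU
    exact hPU
  refine ⟨U, hPU'.1, ?_⟩
  intro v hv
  by_contra hcon
  push Not at hcon
  have h1 := sum_erase_nb (G := G) U hv
  have h2 : (U.card : ℝ) = (U.erase v).card + 1 := by
    have := Finset.card_erase_add_one hv
    exact_mod_cast this.symm
  have h3 : c * d * (U.erase v).card ≤ ∑ w ∈ U.erase v, ((nb G w ∩ U.erase v).card : ℝ) := by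
    have h4 := hPU'.2
    rw [h1, h2] at h4
    have h5 : c * d * (((U.erase v).card : ℝ) + 1) = c * d * (U.erase v).card + c * d := by ring
    rw [h5] at h4
    linarith
  by_cases h6 : (U.erase v).Nonempty
  · have h7 : P (U.erase v) := by
      rw [hP]
      exact ⟨h6, h3⟩
    have h8 := hmin _ (Finset.mem_filter.2 ⟨Finset.mem_univ _, h7⟩)
    have h9 := Finset.card_erase_add_one hv
    omega
  · rw [Finset.not_nonempty_iff_eq_empty] at h6
    have h7 : U = {v} := by
      rw [← Finset.insert_erase hv, h6]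
      simp
    have h8 := hPU'.2
    rw [h7] at h8
    have h9 : nb G v ∩ {v} = ∅ := by
      ext y
      simp only [Finset.mem_inter, Finset.mem_singleton, mem_nb, Finset.notMem_empty, iff_false]
      rintro ⟨h10, rfl⟩
      exact G.irrefl h10
    simp only [Finset.sum_singleton, Finset.card_singleton] at h8
    rw [h9] at h8
    have : 0 < c * d := mul_pos hc hd
    simp at h8
    linarith

open Classical in
theorem cd_eq (z w : V) : cd G z w = (nb G w ∩ nb G z).card := by
  unfold cd
  congr 1
  ext y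
  simp only [Finset.mem_filter, Finset.mem_univ, true_and, Finset.mem_inter, mem_nb]
  tauto

open Classical in
/-- bad continuations of `z x` -/
noncomputable def bad (G : SimpleGraph V) (t : ℝ) (z x : V) : Finset V :=
  (nb G x).filter (fun w => G.Adj z w ∨ t ≤ (cd G z w : ℝ))

open Classical in
theorem sum_bad {t : ℝ} (ht : 0 < t) (z : V) :
    ∑ x ∈ nb G z, ((bad G t z x).card : ℝ) ≤
      ∑ x ∈ nb G z, ((nb G x ∩ nb G z).card : ℝ) +
        (∑ w, (((nb G w ∩ nb G z).card : ℝ)) ^ 2) / t := by
  have h1 : ∀ x ∈ nb G z, ((bad G t z x).card : ℝ) ≤ ((nb G x ∩ nb G z).card : ℝ) +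
      (((nb G x).filter (fun w => t ≤ (cd G z w : ℝ))).card : ℝ) := by
    intro x _
    have : bad G t z x ⊆ (nb G x ∩ nb G z) ∪ ((nb G x).filter (fun w => t ≤ (cd G z w : ℝ))) := by
      intro w hw
      unfold bad at hw
      rw [Finset.mem_filter] at hw
      rw [Finset.mem_union, Finset.mem_inter, Finset.mem_filter]
      rcases hw.2 with h | h
      · exact Or.inl ⟨hw.1, (mem_nb _ _ _).2 h⟩
      · exact Or.inr ⟨hw.1, h⟩
    have h2 := (Finset.card_le_card this).trans (Finset.card_union_le _ _)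
    exact_mod_cast h2
  refine (Finset.sum_le_sum h1).trans ?_
  rw [Finset.sum_add_distrib]
  have h2 : ∑ x ∈ nb G z, (((nb G x).filter (fun w => t ≤ (cd G z w : ℝ))).card : ℝ) =
      ∑ w, if t ≤ (cd G z w : ℝ) then ((nb G w ∩ nb G z).card : ℝ) else 0 := by
    have h3 : ∀ x ∈ nb G z, (((nb G x).filter (fun w => t ≤ (cd G z w : ℝ))).card : ℝ) =
        ∑ w, if (t ≤ (cd G z w : ℝ) ∧ G.Adj x w) then (1 : ℝ) else 0 := by
      intro x _
      rw [← Finset.sum_filter, Finset.sum_const, nsmul_eq_mul, mul_one]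
      congr 2
      ext w
      simp only [Finset.mem_filter, Finset.mem_univ, true_and, mem_nb]
      tauto
    rw [Finset.sum_congr rfl h3, Finset.sum_comm]
    apply Finset.sum_congr rfl
    intro w _
    by_cases h4 : t ≤ (cd G z w : ℝ)
    · rw [if_pos h4, ← Finset.sum_filter, Finset.sum_const, nsmul_eq_mul, mul_one]
      congr 2
      ext y
      simp only [Finset.mem_filter, Finset.mem_inter, mem_nb]
      constructor
      · rintro ⟨h5, _, h6⟩
        exact ⟨h6.symm, h5⟩
      · rintro ⟨h5, h6⟩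
        exact ⟨h6, h4, h5.symm⟩
    · rw [if_neg h4]
      apply Finset.sum_eq_zero
      intro x _
      rw [if_neg (fun h => h4 h.1)]
  rw [h2, Finset.sum_div]
  have h5 : ∑ w, (if t ≤ (cd G z w : ℝ) then ((nb G w ∩ nb G z).card : ℝ) else 0) ≤
      ∑ w, (((nb G w ∩ nb G z).card : ℝ)) ^ 2 / t := by
    apply Finset.sum_le_sum
    intro w _
    split_ifs with h6
    · rw [cd_eq] at h6
      rw [le_div_iff₀ ht, sq]
      exact mul_le_mul_of_nonneg_left h6 (Nat.cast_nonneg _)
    · positivity
  linarith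

open Classical in
/-- an edge forces the form to be at most `-1` somewhere -/
theorem edge_form {e : ℝ} (hq : ∀ f : V → ℝ, -e * N2 f ≤ q G f) {u v : V} (huv : G.Adj u v) :
    1 ≤ e := by
  have hne : u ≠ v := G.ne_of_adj huv
  obtain ⟨f, hf⟩ : ∃ f : V → ℝ, f = fun w => if w = u then 1 else if w = v then -1 else 0 :=
    ⟨_, rfl⟩
  have hfu : f u = 1 := by rw [hf]; simp
  have hfv : f v = -1 := by rw [hf]; simp [hne.symm]
  have hfo : ∀ w, w ≠ u → w ≠ v → f w = 0 := by
    intro w h1 h2
    rw [hf]
    simp [h1, h2]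
  have hsum : ∀ F : V → ℝ, (∀ w, w ≠ u → w ≠ v → F w = 0) → ∑ w, F w = F u + F v := by
    intro F hF
    rw [← Finset.sum_pair hne]
    symm
    apply Finset.sum_subset (Finset.subset_univ _)
    intro w _ hw
    rw [Finset.mem_insert, Finset.mem_singleton, not_or] at hw
    exact hF w hw.1 hw.2
  have h1 : N2 f = 2 := by
    unfold N2
    rw [hsum (fun w => f w ^ 2) (fun w h1 h2 => by simp only [hfo w h1 h2]; norm_num), hfu, hfv]
    norm_num
  have h2 : q G f = -2 := by
    unfold q bb
    rw [hsum _ (fun w h1 h2 => Finset.sum_eq_zero (fun x _ => by rw [hfo w h1 h2]; simp))]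
    rw [hsum _ (fun w h1 h2 => by rw [hfo w h1 h2]; simp),
      hsum _ (fun w h1 h2 => by rw [hfo w h1 h2]; simp)]
    rw [if_neg (G.irrefl), if_pos huv, if_pos huv.symm, if_neg (G.irrefl), hfu, hfv]
    norm_num
  have h3 := hq f
  rw [h1, h2] at h3
  linarith

open Classical in
/-- **Main local step.** -/
theorem step (m k : ℕ) (T : SimpleGraph (Fin (m + 1))) (hT : T.IsTree)
    (IH : ∀ c : ℝ, 0 < c → ∃ ε : ℝ, 0 < ε ∧ ∀ (V : Type) [Fintype V] (G : SimpleGraph V) (d : ℝ),
      Nonempty V → 0 < d → (∀ v, ((nb G v).card : ℝ) ≤ d) → G.CliqueFree (k + 1) →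
      IsEmpty (T ↪g G) → (∀ f : V → ℝ, -(ε * d) * N2 f ≤ q G f) →
      ∑ v, ((nb G v).card : ℝ) < c * d * Fintype.card V)
    (c : ℝ) (hc : 0 < c) (hc1 : c ≤ 1) :
    ∃ ε : ℝ, 0 < ε ∧ ∀ (V : Type) [Fintype V] (G : SimpleGraph V) (d : ℝ),
      Nonempty V → 0 < d → (∀ v, ((nb G v).card : ℝ) ≤ d) → G.CliqueFree (k + 1 + 1) →
      IsEmpty (T ↪g G) → (∀ f : V → ℝ, -(ε * d) * N2 f ≤ q G f) →
      ¬ (∀ v, c * d / 2 ≤ ((nb G v).card : ℝ)) := by
  obtain ⟨δ0, hδ0, d0, hemb⟩ := embed_tree (m + 1) (k + 1) (by omega) (by omega) (c / 8)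
    (by positivity) (by linarith)
  obtain ⟨δ, hδd⟩ : ∃ δ : ℝ, δ = min δ0 (c / 2) := ⟨_, rfl⟩
  have hδ : 0 < δ := by rw [hδd]; exact lt_min hδ0 (by positivity)
  have hδ1 : δ ≤ δ0 := by rw [hδd]; exact min_le_left _ _
  have hδ2 : δ ≤ c / 2 := by rw [hδd]; exact min_le_right _ _
  obtain ⟨β, hβd⟩ : ∃ β : ℝ, β = c ^ 2 / (64 * (1 + 4 / δ)) := ⟨_, rfl⟩
  have hβ : 0 < β := by rw [hβd]; positivity
  obtain ⟨ε1, hε1, hIH⟩ := IH β hβ
  obtain ⟨ε, hεd⟩ : ∃ ε : ℝ, ε = min (min ε1 β) (min 1 (1 / (|d0| + 1))) := ⟨_, rfl⟩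
  have hε : 0 < ε := by
    rw [hεd]
    exact lt_min (lt_min hε1 hβ) (lt_min one_pos (by positivity))
  have hεε1 : ε ≤ ε1 := by rw [hεd]; exact (min_le_left _ _).trans (min_le_left _ _)
  have hεβ : ε ≤ β := by rw [hεd]; exact (min_le_left _ _).trans (min_le_right _ _)
  have hε1' : ε ≤ 1 := by rw [hεd]; exact (min_le_right _ _).trans (min_le_left _ _)
  have hεd0 : ε ≤ 1 / (|d0| + 1) := by rw [hεd]; exact (min_le_right _ _).trans (min_le_right _ _)
  refine ⟨ε, hε, ?_⟩
  intro V _ G d hV hd hdeg hfree hemp hq hmin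
  -- `d` is large
  obtain ⟨v0⟩ := hV
  have hdd0 : d0 ≤ d := by
    have h1 : 0 < ((nb G v0).card : ℝ) := lt_of_lt_of_le (by positivity) (hmin v0)
    have h2 : 0 < (nb G v0).card := by exact_mod_cast h1
    obtain ⟨x, hx⟩ := Finset.card_pos.1 h2
    have h3 := edge_form hq ((mem_nb _ _ _).1 hx)
    have h4 : (0 : ℝ) < |d0| + 1 := by positivity
    have h5 : 1 / (|d0| + 1) * d ≥ 1 := by
      have := mul_le_mul_of_nonneg_right hεd0 hd.le
      linarith
    have h6 : |d0| + 1 ≤ d := by
      have h7 : 1 / (|d0| + 1) * d = d / (|d0| + 1) := by ring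
      rw [h7, ge_iff_le, le_div_iff₀ h4] at h5
      linarith
    have := le_abs_self d0
    linarith
  -- the neighbourhood of every vertex is sparse
  have hloc : ∀ z, ∑ x ∈ nb G z, ((nb G x ∩ nb G z).card : ℝ) ≤ β * d * d := by
    intro z
    have h1 : 0 < ((nb G z).card : ℝ) := lt_of_lt_of_le (by positivity) (hmin z)
    have h2 : 0 < (nb G z).card := by exact_mod_cast h1
    obtain ⟨x, hx⟩ := Finset.card_pos.1 h2
    have h3 := hIH {x // x ∈ nb G z} (ind G (nb G z)) d ⟨⟨x, hx⟩⟩ hd
      (by
        intro v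
        rw [nb_ind]
        refine le_trans ?_ (hdeg v.1)
        exact_mod_cast Finset.card_le_card Finset.inter_subset_left)
      (by
        intro s hs
        have hs' : (s.map ⟨Subtype.val, Subtype.val_injective⟩).card = k + 1 := by
          rw [Finset.card_map]
          exact hs.2
        have hz : z ∉ s.map ⟨Subtype.val, Subtype.val_injective⟩ := by
          rw [Finset.mem_map]
          rintro ⟨y, _, hy⟩
          have h4 := y.2
          rw [mem_nb] at h4
          have h5 : y.1 = z := hy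
          rw [h5] at h4
          exact G.irrefl h4
        apply hfree (insert z (s.map ⟨Subtype.val, Subtype.val_injective⟩))
        rw [SimpleGraph.isNClique_iff]
        constructor
        · rw [Finset.coe_insert, SimpleGraph.isClique_insert]
          constructor
          · intro a ha b hb hab
            rw [Finset.mem_coe, Finset.mem_map] at ha hb
            obtain ⟨a', ha', rfl⟩ := ha
            obtain ⟨b', hb', rfl⟩ := hb
            exact hs.1 ha' hb' (fun h => hab (by rw [h]))
          · intro b hb _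
            rw [Finset.mem_coe, Finset.mem_map] at hb
            obtain ⟨b', hb', rfl⟩ := hb
            exact (mem_nb _ _ _).1 b'.2
        · rw [Finset.card_insert_of_notMem hz, hs'])
      ⟨fun g => hemp.false (g.trans (indEmb G _))⟩
      (by
        intro f
        have h4 := hq (ext0 _ f)
        rw [N2_ext, q_ext] at h4
        refine le_trans ?_ h4
        have h5 := N2_nonneg f
        have h6 : ε * d ≤ ε1 * d := mul_le_mul_of_nonneg_right hεε1 hd.le
        nlinarith)
    have h4 : ∑ x ∈ nb G z, ((nb G x ∩ nb G z).card : ℝ) =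
        ∑ v : {x // x ∈ nb G z}, ((nb (ind G (nb G z)) v).card : ℝ) := by
      rw [← Finset.sum_coe_sort (nb G z)]
      apply Finset.sum_congr rfl
      intro v _
      rw [nb_ind]
    rw [h4]
    refine h3.le.trans ?_
    apply mul_le_mul_of_nonneg_left _ (by positivity)
    rw [Fintype.card_coe]
    exact hdeg z
  -- hence bad continuations are few
  have hbad : ∀ z, ∑ x ∈ nb G z, ((bad G (δ * d) z x).card : ℝ) ≤ c ^ 2 / 64 * d * d := by
    intro z
    have h1 := sum_bad (G := G) (t := δ * d) (mul_pos hδ hd) z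
    have h2 := spec (G := G) (d := d) (e := ε * d) hd (by positivity) hdeg hq (nb G z)
    have h3 : (d + ε * d) * (∑ v ∈ nb G z, ((nb G v ∩ nb G z).card : ℝ) + ε * d * (nb G z).card) ≤
        (2 * d) * (2 * β * d * d) := by
      have h4 : d + ε * d ≤ 2 * d := by nlinarith
      have h5 : ε * d * ((nb G z).card : ℝ) ≤ β * d * d := by
        have h6 : ε * d ≤ β * d := mul_le_mul_of_nonneg_right hεβ hd.le
        exact mul_le_mul h6 (hdeg z) (Nat.cast_nonneg _) (by positivity)
      apply mul_le_mul h4 _ _ (by positivity)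
      · linarith [hloc z]
      · positivity
    have h7 : (∑ w, (((nb G w ∩ nb G z).card : ℝ)) ^ 2) / (δ * d) ≤ 4 / δ * β * d * d := by
      rw [div_le_iff₀ (mul_pos hδ hd)]
      have h8 : 4 / δ * β * d * d * (δ * d) = (2 * d) * (2 * β * d * d) := by
        field_simp
        ring
      rw [h8]
      exact h2.trans h3
    have h9 : β * (1 + 4 / δ) = c ^ 2 / 64 := by
      rw [hβd]
      field_simp
    calc ∑ x ∈ nb G z, ((bad G (δ * d) z x).card : ℝ) ≤ β * d * d + 4 / δ * β * d * d := by
          linarith [hloc z]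
      _ = β * (1 + 4 / δ) * d * d := by ring
      _ = c ^ 2 / 64 * d * d := by rw [h9]
  -- so few arcs at each vertex have many bad continuations
  have hfew : ∀ z, (((nb G z).filter (fun x => c / 8 * d ≤ ((bad G (δ * d) z x).card : ℝ))).card : ℝ)
      ≤ c / 8 * d := by
    intro z
    have h1 : (((nb G z).filter (fun x => c / 8 * d ≤ ((bad G (δ * d) z x).card : ℝ))).card : ℝ) *
        (c / 8 * d) ≤ c ^ 2 / 64 * d * d := by
      refine le_trans ?_ (hbad z)
      rw [← nsmul_eq_mul, ← Finset.sum_const]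
      calc ∑ x ∈ (nb G z).filter (fun x => c / 8 * d ≤ ((bad G (δ * d) z x).card : ℝ)), c / 8 * d ≤
            ∑ x ∈ (nb G z).filter (fun x => c / 8 * d ≤ ((bad G (δ * d) z x).card : ℝ)),
              ((bad G (δ * d) z x).card : ℝ) :=
            Finset.sum_le_sum fun x hx => (Finset.mem_filter.1 hx).2
        _ ≤ ∑ x ∈ nb G z, ((bad G (δ * d) z x).card : ℝ) :=
            Finset.sum_le_sum_of_subset_of_nonneg (Finset.filter_subset _ _)
              (fun _ _ _ => Nat.cast_nonneg _)
    have h2 : c ^ 2 / 64 * d * d = (c / 8 * d) * (c / 8 * d) := by ring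
    rw [h2] at h1
    exact le_of_mul_le_mul_right h1 (by positivity)
  obtain ⟨A, hA⟩ : ∃ A : V → V → Prop, A = fun z x => G.Adj z x ∧
      ((bad G (δ * d) z x).card : ℝ) < c / 8 * d := ⟨_, rfl⟩
  obtain ⟨Λ, hΛ⟩ : ∃ Λ : V → V → Finset V, Λ = fun z x => (nb G x).filter (fun w =>
      A x w ∧ w ≠ z ∧ ¬ G.Adj z w ∧ (cd G z w : ℝ) < δ * d) := ⟨_, rfl⟩
  have hcdz : ∀ z, δ * d ≤ (cd G z z : ℝ) := by
    intro z
    rw [cd_eq, Finset.inter_self]
    refine le_trans ?_ (hmin z)
    have := mul_le_mul_of_nonneg_right hδ2 hd.le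
    linarith
  have hsys : LightSystem G d δ0 (c / 8) A Λ :=
    { adj := fun z x h => by
        rw [hA] at h
        exact h.1
      deg := fun v => by
        have := hdeg v
        unfold nb at this
        exact this
      cont := by
        intro z x _ w hw
        rw [hΛ] at hw
        have h1 := (Finset.mem_filter.1 hw).2
        exact ⟨h1.1, h1.2.1, h1.2.2.1⟩
      large := by
        intro z x hzx
        have hzx' : G.Adj z x ∧ ((bad G (δ * d) z x).card : ℝ) < c / 8 * d := by
          rw [hA] at hzx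
          exact hzx
        have h1 : nb G x ⊆ Λ z x ∪ (bad G (δ * d) z x ∪
            (nb G x).filter (fun w => c / 8 * d ≤ ((bad G (δ * d) x w).card : ℝ))) := by
          intro w hw
          rw [Finset.mem_union, Finset.mem_union]
          by_cases h2 : c / 8 * d ≤ ((bad G (δ * d) x w).card : ℝ)
          · exact Or.inr (Or.inr (Finset.mem_filter.2 ⟨hw, h2⟩))
          · by_cases h3 : G.Adj z w ∨ δ * d ≤ (cd G z w : ℝ)
            · right
              left
              unfold bad
              exact Finset.mem_filter.2 ⟨hw, h3⟩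
            · left
              rw [not_or, not_le] at h3
              rw [hΛ]
              refine Finset.mem_filter.2 ⟨hw, ?_, ?_, h3.1, h3.2⟩
              · rw [hA]
                exact ⟨(mem_nb _ _ _).1 hw, not_le.1 h2⟩
              · rintro rfl
                have := hcdz w
                linarith [h3.2]
        have h2 := (Finset.card_le_card h1).trans ((Finset.card_union_le _ _).trans
          (Nat.add_le_add_left (Finset.card_union_le _ _) _))
        have h3 : ((nb G x).card : ℝ) ≤ (Λ z x).card + ((bad G (δ * d) z x).card +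
            ((nb G x).filter (fun w => c / 8 * d ≤ ((bad G (δ * d) x w).card : ℝ))).card) := by
          exact_mod_cast h2
        have h4 := hfew x
        have h5 := hmin x
        have h6 : 0 < c * d := mul_pos hc hd
        linarith [hzx'.2]
      light := by
        intro z y
        have key : ∀ S : Finset V, (∀ x ∈ S, G.Adj z x ∧ y ∈ Λ z x) →
            (S.card : ℝ) ≤ δ0 * d := by
          intro S hS
          rcases S.eq_empty_or_nonempty with rfl | ⟨x, hx⟩
          · simp only [Finset.card_empty, Nat.cast_zero]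
            positivity
          · have hy := (hS x hx).2
            rw [hΛ] at hy
            have h4 := (Finset.mem_filter.1 hy).2.2.2.2
            refine le_trans ?_ (h4.le.trans (mul_le_mul_of_nonneg_right hδ1 hd.le))
            have : S.card ≤ cd G z y := by
              unfold cd
              apply Finset.card_le_card
              intro x' hx'
              obtain ⟨h5, h6⟩ := hS x' hx'
              rw [hΛ] at h6
              have h7 := (Finset.mem_filter.1 h6).1
              rw [mem_nb] at h7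
              exact Finset.mem_filter.2 ⟨Finset.mem_univ _, h5, h7.symm⟩
            exact_mod_cast this
        exact key _ (fun x hx => by
          have h1 := ((@Finset.mem_filter _ _ (_) _ _).1 hx).2
          refine ⟨?_, h1.2⟩
          have h2 := h1.1
          rw [hA] at h2
          exact h2.1) }
  have hex : ∃ z x, A z x := by
    by_contra hcon
    push Not at hcon
    have h1 : nb G v0 ⊆ (nb G v0).filter (fun x => c / 8 * d ≤ ((bad G (δ * d) v0 x).card : ℝ)) := by
      intro x hx
      refine Finset.mem_filter.2 ⟨hx, ?_⟩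
      by_contra h2
      apply hcon v0 x
      rw [hA]
      exact ⟨(mem_nb _ _ _).1 hx, not_le.1 h2⟩
    have h2 : ((nb G v0).card : ℝ) ≤ ((nb G v0).filter (fun x => c / 8 * d ≤
        ((bad G (δ * d) v0 x).card : ℝ))).card := by exact_mod_cast Finset.card_le_card h1
    have h3 := hfew v0
    have h4 := hmin v0
    have h6 : 0 < c * d := mul_pos hc hd
    linarith
  obtain ⟨f, hf1, hf2⟩ := hemb V G d A Λ hdd0 hsys hex hfree m (by omega)
    (Fin (m + 1)) T hT (by simp)
  exact hemp.false { toFun := f, inj' := hf1, map_rel_iff' := fun {a b} => (hf2 a b).symm }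

open Classical in
/-- **Local theorem**: a graph without an induced tree `T` and without a large clique whose
adjacency form is at least `- ε d` has average degree less than `c d`. -/
theorem local_thm (m : ℕ) (T : SimpleGraph (Fin (m + 1))) (hT : T.IsTree) (k : ℕ) :
    ∀ c : ℝ, 0 < c → ∃ ε : ℝ, 0 < ε ∧ ∀ (V : Type) [Fintype V] (G : SimpleGraph V) (d : ℝ),
      Nonempty V → 0 < d → (∀ v, ((nb G v).card : ℝ) ≤ d) → G.CliqueFree (k + 1) →
      IsEmpty (T ↪g G) → (∀ f : V → ℝ, -(ε * d) * N2 f ≤ q G f) →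
      ∑ v, ((nb G v).card : ℝ) < c * d * Fintype.card V := by
  induction k with
  | zero =>
    intro c _
    refine ⟨1, one_pos, ?_⟩
    intro V _ G d hV _ _ hfree
    obtain ⟨v⟩ := hV
    exact absurd (show G.IsNClique (0 + 1) {v} by simp [SimpleGraph.isNClique_iff]) (hfree {v})
  | succ k ih =>
    intro c hc
    obtain ⟨c', hc'⟩ : ∃ c' : ℝ, c' = min c 1 := ⟨_, rfl⟩
    have hc'0 : 0 < c' := by rw [hc']; exact lt_min hc one_pos
    have hc'1 : c' ≤ 1 := by rw [hc']; exact min_le_right _ _
    have hc'c : c' ≤ c := by rw [hc']; exact min_le_left _ _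
    obtain ⟨ε, hε, hstep⟩ := step m k T hT ih c' hc'0 hc'1
    refine ⟨ε, hε, ?_⟩
    intro V _ G d hV hd hdeg hfree hemp hq
    by_contra hcon
    push Not at hcon
    have h1 : c' * d * Fintype.card V ≤ ∑ v, ((nb G v).card : ℝ) := by
      refine le_trans ?_ hcon
      apply mul_le_mul_of_nonneg_right _ (Nat.cast_nonneg _)
      exact mul_le_mul_of_nonneg_right hc'c hd.le
    obtain ⟨U, hU, hdegU⟩ := prune (G := G) hV hc'0 hd h1
    obtain ⟨u, hu⟩ := hU
    apply hstep {x // x ∈ U} (ind G U) d ⟨⟨u, hu⟩⟩ hd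
    · intro v
      rw [nb_ind]
      refine le_trans ?_ (hdeg v.1)
      exact_mod_cast Finset.card_le_card Finset.inter_subset_left
    · exact hfree.comap ⟨(indEmb G U).toCopy⟩
    · exact ⟨fun g => hemp.false (g.trans (indEmb G _))⟩
    · intro f
      have h4 := hq (ext0 _ f)
      rw [N2_ext, q_ext] at h4
      exact h4
    · intro v
      rw [nb_ind]
      exact hdegU v.1 v.2

end Pool.Agent.R50.MC
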