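import Pool.Agent.R50.MC.Local

set_option autoImplicit false

/-!
# From forms to cuts
-/

namespace Pool.Agent.R50.MC

open Finset Pool.Agent.Y394.AT

variable {V : Type} [Fintype V] {G : SimpleGraph V}

/-! ### Random signs, derandomised -/

/-- bound for the fourth moment -/
noncomputable def P4 (a s : ℝ) : ℝ := a ^ 4 + 6 * a ^ 2 * s + 3 * s ^ 2

theorem P4_step (a b s : ℝ) : P4 (a + 1 * b) s + P4 (a + (-1) * b) s ≤ 2 * P4 a (b ^ 2 + s) := by
  unfold P4
  nlinarith [sq_nonneg (b ^ 2)]

theorem signs (w : V → ℝ) (hw : ∀ v, 0 ≤ w v) (L : List (V → ℝ)) : ∀ g : V → ℝ, ∃ g' : V → ℝ,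
    q G g' + ∑ v, w v * (g' v) ^ 4 ≤
      q G g + (L.map (q G)).sum + ∑ v, w v * P4 (g v) ((L.map (fun b => b v ^ 2)).sum) := by
  induction L with
  | nil =>
    intro g
    refine ⟨g, ?_⟩
    simp [P4]
  | cons b L ih =>
    intro g
    obtain ⟨g1, h1⟩ := ih (fun v => g v + 1 * b v)
    obtain ⟨g2, h2⟩ := ih (fun v => g v + (-1) * b v)
    rw [q_add] at h1 h2
    have h3 : ∑ v, w v * P4 (g v + 1 * b v) ((L.map (fun b => b v ^ 2)).sum) +
        ∑ v, w v * P4 (g v + (-1) * b v) ((L.map (fun b => b v ^ 2)).sum) ≤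
        2 * ∑ v, w v * P4 (g v) (((b :: L).map (fun b => b v ^ 2)).sum) := by
      rw [← Finset.sum_add_distrib, Finset.mul_sum]
      apply Finset.sum_le_sum
      intro v _
      rw [List.map_cons, List.sum_cons, ← mul_add]
      have h4 := mul_le_mul_of_nonneg_left
        (P4_step (g v) (b v) ((L.map (fun b => b v ^ 2)).sum)) (hw v)
      linarith
    have h5 : ((b :: L).map (q G)).sum = q G b + (L.map (q G)).sum := by
      rw [List.map_cons, List.sum_cons]
    rw [h5]
    by_contra hcon
    push Not at hcon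
    have h6 := hcon g1
    have h7 := hcon g2
    linarith

/-! ### Clipping -/

/-- clipping -/
noncomputable def clip (M x : ℝ) : ℝ := max (-M) (min M x)

theorem clip_abs {M : ℝ} (hM : 0 < M) (x : ℝ) : |clip M x| ≤ M := by
  unfold clip
  rw [abs_le]
  exact ⟨le_max_left _ _, max_le (by linarith) (min_le_left _ _)⟩

theorem clip_abs_le {M : ℝ} (hM : 0 < M) (x : ℝ) : |clip M x| ≤ |x| := by
  unfold clip
  rw [abs_le]
  constructor
  · have h1 : -|x| ≤ x := neg_abs_le x
    have h2 : -|x| ≤ 0 := by simp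
    refine le_trans ?_ (le_max_right _ _)
    exact le_min (by linarith) h1
  · apply max_le
    · have := abs_nonneg x
      linarith
    · exact (min_le_right _ _).trans (le_abs_self x)

theorem clip_eq {M x : ℝ} (h : |x| ≤ M) : clip M x = x := by
  unfold clip
  rw [abs_le] at h
  rw [min_eq_right h.2, max_eq_right h.1]

theorem clip_mul {M : ℝ} (hM : 0 < M) (a b : ℝ) :
    clip M a * clip M b ≤ a * b + 2 * (a ^ 4 + b ^ 4) / M ^ 2 := by
  by_cases h : |a| ≤ M ∧ |b| ≤ M
  · rw [clip_eq h.1, clip_eq h.2]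
    have : 0 ≤ 2 * (a ^ 4 + b ^ 4) / M ^ 2 := by positivity
    linarith
  · have h1 : clip M a * clip M b ≤ |a| * |b| := by
      refine (le_abs_self _).trans ?_
      rw [abs_mul]
      exact mul_le_mul (clip_abs_le hM a) (clip_abs_le hM b) (abs_nonneg _) (abs_nonneg _)
    have h2 : -(a * b) ≤ |a| * |b| := by
      rw [← abs_mul]
      exact neg_le_abs _
    have h3 : 2 * (|a| * |b|) ≤ a ^ 2 + b ^ 2 := by
      have := sq_nonneg (|a| - |b|)
      nlinarith [sq_abs a, sq_abs b]
    have h4 : a ^ 2 + b ^ 2 ≤ 2 * (a ^ 4 + b ^ 4) / M ^ 2 := by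
      rw [le_div_iff₀ (by positivity)]
      have key : ∀ x y : ℝ, 0 ≤ x → 0 ≤ y → (M ^ 2 ≤ x ∨ M ^ 2 ≤ y) →
          (x + y) * M ^ 2 ≤ 2 * (x ^ 2 + y ^ 2) := by
        intro x y hx hy hxy
        have hM2 : 0 < M ^ 2 := by positivity
        rcases le_total x y with h5 | h5
        · have h6 : M ^ 2 ≤ y := by
            rcases hxy with h6 | h6
            · exact h6.trans h5
            · exact h6
          nlinarith
        · have h6 : M ^ 2 ≤ x := by
            rcases hxy with h6 | h6
            · exact h6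
            · exact h6.trans h5
          nlinarith
      have h5 := key (a ^ 2) (b ^ 2) (sq_nonneg _) (sq_nonneg _) (by
        rw [not_and_or, not_le, not_le] at h
        rcases h with h | h
        · left
          rw [← sq_abs a]
          exact pow_le_pow_left₀ hM.le h.le 2
        · right
          rw [← sq_abs b]
          exact pow_le_pow_left₀ hM.le h.le 2)
      have e1 : (a ^ 2) ^ 2 = a ^ 4 := by ring
      have e2 : (b ^ 2) ^ 2 = b ^ 4 := by ring
      rw [e1, e2] at h5
      exact h5
    linarith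

open Classical in
theorem sum_adj (F : V → ℝ) : ∑ v, ∑ w, (if G.Adj v w then F v + F w else 0) =
    2 * ∑ v, ((nb G v).card : ℝ) * F v := by
  have h2 : ∑ v, ∑ w, (if G.Adj v w then F v else 0) = ∑ v, ((nb G v).card : ℝ) * F v := by
    apply Finset.sum_congr rfl
    intro v _
    rw [← Finset.sum_filter, Finset.sum_const, nsmul_eq_mul]
    congr 2
  have h3 : ∑ v, ∑ w, (if G.Adj v w then F w else 0) =
      ∑ v, ∑ w, (if G.Adj v w then F v else 0) := by
    rw [Finset.sum_comm]
    apply Finset.sum_congr rfl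
    intro v _
    apply Finset.sum_congr rfl
    intro w _
    by_cases h : G.Adj v w
    · rw [if_pos h, if_pos h.symm]
    · rw [if_neg h, if_neg (fun h' => h h'.symm)]
  have h4 : ∑ v, ∑ w, (if G.Adj v w then F v + F w else 0) =
      (∑ v, ∑ w, (if G.Adj v w then F v else 0)) +
        ∑ v, ∑ w, (if G.Adj v w then F w else 0) := by
    rw [← Finset.sum_add_distrib]
    apply Finset.sum_congr rfl
    intro v _
    rw [← Finset.sum_add_distrib]
    apply Finset.sum_congr rfl
    intro w _
    split_ifs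
    · ring
    · ring
  rw [h4, h3, h2]
  ring

open Classical in
theorem q_clip {M : ℝ} (hM : 0 < M) (g : V → ℝ) :
    q G (fun v => clip M (g v)) ≤
      q G g + ∑ v, (4 * ((nb G v).card : ℝ) / M ^ 2) * (g v) ^ 4 := by
  have h1 : ∑ v, (4 * ((nb G v).card : ℝ) / M ^ 2) * (g v) ^ 4 =
      ∑ v, ∑ w, (if G.Adj v w then 2 * (g v) ^ 4 / M ^ 2 + 2 * (g w) ^ 4 / M ^ 2 else 0) := by
    rw [sum_adj (fun v => 2 * (g v) ^ 4 / M ^ 2), Finset.mul_sum]
    apply Finset.sum_congr rfl
    intro v _
    ring
  rw [h1]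
  unfold q bb
  rw [← Finset.sum_add_distrib]
  apply Finset.sum_le_sum
  intro v _
  rw [← Finset.sum_add_distrib]
  apply Finset.sum_le_sum
  intro w _
  split_ifs
  · have := clip_mul hM (g v) (g w)
    have e : 2 * (g v ^ 4 + g w ^ 4) / M ^ 2 = 2 * g v ^ 4 / M ^ 2 + 2 * g w ^ 4 / M ^ 2 := by ring
    rw [e] at this
    exact this
  · simp

/-! ### Rounding to signs -/

open Classical in
/-- indicator of a vertex -/
noncomputable def dl (v : V) : V → ℝ := fun w => if w = v then 1 else 0

open Classical in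
theorem q_dl (v : V) : q G (dl v) = 0 := by
  unfold q bb
  apply Finset.sum_eq_zero
  intro a _
  apply Finset.sum_eq_zero
  intro b _
  split_ifs with h
  · unfold dl
    by_cases h1 : a = v
    · by_cases h2 : b = v
      · exact absurd h (by rw [h1, h2]; exact G.irrefl)
      · simp [h2]
    · simp [h1]
  · rfl

open Classical in
theorem round (S : Finset V) (y : V → ℝ) (hy : ∀ v, |y v| ≤ 1) :
    ∃ s : V → ℝ, (∀ v, |s v| ≤ 1) ∧ (∀ v ∈ S, s v = 1 ∨ s v = -1) ∧ q G s ≤ q G y := by
  induction S using Finset.induction_on with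
  | empty => exact ⟨y, hy, by simp, le_refl _⟩
  | insert v S hv ih =>
    obtain ⟨s, hs1, hs2, hs3⟩ := ih
    obtain ⟨L, hL⟩ : ∃ L : ℝ, L = bb G s (dl v) := ⟨_, rfl⟩
    have hst : ∀ t : ℝ, q G (fun w => s w + t * dl v w) = q G s + 2 * t * L := by
      intro t
      rw [q_add, q_dl, hL]
      ring
    have hval : ∀ t : ℝ, (t = 1 ∨ t = -1) → ∀ w, w = v → s w + (t - s v) * dl v w = t := by
      intro t _ w hw
      subst hw
      unfold dl
      simp
    have hother : ∀ t : ℝ, ∀ w, w ≠ v → s w + (t - s v) * dl v w = s w := by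
      intro t w hw
      unfold dl
      simp [hw]
    have main : ∀ t : ℝ, (t = 1 ∨ t = -1) → (t - s v) * L ≤ 0 →
        ∃ s : V → ℝ, (∀ v, |s v| ≤ 1) ∧ (∀ w ∈ insert v S, s w = 1 ∨ s w = -1) ∧
          q G s ≤ q G y := by
      intro t ht htL
      refine ⟨fun w => s w + (t - s v) * dl v w, ?_, ?_, ?_⟩
      · intro w
        by_cases hw : w = v
        · simp only
          rw [hval t ht w hw]
          rcases ht with rfl | rfl <;> norm_num
        · simp only
          rw [hother t w hw]
          exact hs1 w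
      · intro w hw
        by_cases hwv : w = v
        · simp only
          rw [hval t ht w hwv]
          exact ht
        · simp only
          rw [hother t w hwv]
          exact hs2 w ((Finset.mem_insert.1 hw).resolve_left hwv)
      · rw [hst]
        nlinarith
    have hsv := abs_le.1 (hs1 v)
    rcases le_total 0 L with h | h
    · apply main (-1) (Or.inr rfl)
      nlinarith [hsv.1]
    · apply main 1 (Or.inl rfl)
      nlinarith [hsv.2]

open Classical in
theorem cut_of_signs (s : V → ℝ) (hs : ∀ v, s v = 1 ∨ s v = -1) :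
    q G s = ∑ v, ((nb G v).card : ℝ) -
      4 * ((((univ : Finset V) ×ˢ (univ : Finset V)).filter
        (fun p => s p.1 = 1 ∧ s p.2 = -1 ∧ G.Adj p.1 p.2)).card : ℝ) := by
  obtain ⟨χ, hχ⟩ : ∃ χ : V → V → ℝ, χ = fun v w => if s v = 1 ∧ s w = -1 ∧ G.Adj v w then 1 else 0 :=
    ⟨_, rfl⟩
  have h1 : ((((univ : Finset V) ×ˢ (univ : Finset V)).filter
      (fun p => s p.1 = 1 ∧ s p.2 = -1 ∧ G.Adj p.1 p.2)).card : ℝ) = ∑ v, ∑ w, χ v w := by
    rw [hχ]
    rw [← Finset.sum_product', ← Finset.sum_filter, Finset.sum_const, nsmul_eq_mul, mul_one]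
  have h2 : ∑ v, ∑ w, χ v w = ∑ v, ∑ w, χ w v := Finset.sum_comm
  have h3 : ∑ v, ((nb G v).card : ℝ) = ∑ v, ∑ w, if G.Adj v w then (1 : ℝ) else 0 := by
    apply Finset.sum_congr rfl
    intro v _
    rw [← Finset.sum_filter, Finset.sum_const, nsmul_eq_mul, mul_one]
    congr 2
  have h4 : q G s = ∑ v, ∑ w, ((if G.Adj v w then (1 : ℝ) else 0) - 2 * χ v w - 2 * χ w v) := by
    unfold q bb
    apply Finset.sum_congr rfl
    intro v _
    apply Finset.sum_congr rfl
    intro w _
    rw [hχ]
    by_cases h : G.Adj v w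
    · have h' := h.symm
      rcases hs v with h5 | h5 <;> rcases hs w with h6 | h6 <;> simp only [h, h', h5, h6] <;>
        norm_num
    · have h' : ¬ G.Adj w v := fun h' => h h'.symm
      simp [h, h']
  rw [h4, h1, h3]
  simp only [Finset.sum_sub_distrib]
  simp only [← Finset.mul_sum]
  rw [← h2]
  ring

/-! ### Greedy construction of a vector solution -/

open Classical in
/-- **Greedy step and its iteration.** If every set `U` of more than `(1 - η) n` vertices carries a
function `f ≠ 0` with `q f ≤ -e N2 f`, then there are many such functions with disjoint budgets. -/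
theorem greedy {e η : ℝ} (hη : 0 < η)
    (hU : ∀ U : Finset V, ((univ \ U).card : ℝ) ≤ η * Fintype.card V →
      ∃ f : V → ℝ, (∀ v, v ∉ U → f v = 0) ∧ (∃ v, f v ≠ 0) ∧ q G f ≤ -e * N2 f) (t : ℕ) :
    ∃ L : List (V → ℝ), (∀ v, (L.map (fun b => b v ^ 2)).sum ≤ 1) ∧
      (L.map (q G)).sum ≤ -e * (L.map N2).sum ∧
      (η / 2 * Fintype.card V ≤ (L.map N2).sum ∨ (t : ℝ) / 2 ≤ (L.map N2).sum) := by
  induction t with
  | zero =>
    refine ⟨[], by simp, by simp, Or.inr (by simp)⟩
  | succ t ih =>
    obtain ⟨L, h1, h2, h3⟩ := ih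
    by_cases h4 : η / 2 * Fintype.card V ≤ (L.map N2).sum
    · exact ⟨L, h1, h2, Or.inl h4⟩
    have h5 : (t : ℝ) / 2 ≤ (L.map N2).sum := h3.resolve_left h4
    push Not at h4
    have hsum : (L.map N2).sum = ∑ v, (L.map (fun b => b v ^ 2)).sum := by
      clear h1 h2 h3 h4 h5
      induction L with
      | nil => simp
      | cons b L ih =>
        rw [List.map_cons, List.sum_cons, ih]
        simp only [List.map_cons, List.sum_cons]
        rw [Finset.sum_add_distrib]
        rfl
    obtain ⟨U, hUd⟩ : ∃ U : Finset V, U = (univ : Finset V).filter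
      (fun v => (L.map (fun b => b v ^ 2)).sum ≤ 1 / 2) := ⟨_, rfl⟩
    have hnn : ∀ v, 0 ≤ (L.map (fun b => b v ^ 2)).sum := by
      intro v
      apply List.sum_nonneg
      intro x hx
      rw [List.mem_map] at hx
      obtain ⟨b, _, rfl⟩ := hx
      positivity
    have hUc : ((univ \ U).card : ℝ) ≤ η * Fintype.card V := by
      have h6 : ((univ \ U).card : ℝ) * (1 / 2) ≤ ∑ v ∈ univ \ U, (L.map (fun b => b v ^ 2)).sum := by
        rw [← nsmul_eq_mul, ← Finset.sum_const]
        apply Finset.sum_le_sum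
        intro v hv
        rw [Finset.mem_sdiff, hUd, Finset.mem_filter] at hv
        by_contra hcon
        push Not at hcon
        exact hv.2 ⟨Finset.mem_univ _, hcon.le⟩
      have h7 : ∑ v ∈ univ \ U, (L.map (fun b => b v ^ 2)).sum ≤ (L.map N2).sum := by
        rw [hsum]
        exact Finset.sum_le_sum_of_subset_of_nonneg (Finset.subset_univ _) (fun v _ _ => hnn v)
      linarith
    obtain ⟨f, hf1, ⟨v1, hv1⟩, hf3⟩ := hU U hUc
    obtain ⟨v0, _, hmax⟩ := Finset.exists_max_image (univ : Finset V) (fun v => f v ^ 2)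
      ⟨v1, Finset.mem_univ _⟩
    have hpos : 0 < f v0 ^ 2 := by
      have h6 := hmax v1 (Finset.mem_univ _)
      have h7 : 0 < f v1 ^ 2 := by positivity
      linarith
    obtain ⟨a, ha⟩ : ∃ a : ℝ, a = Real.sqrt (1 / (2 * f v0 ^ 2)) := ⟨_, rfl⟩
    have ha2 : a ^ 2 = 1 / (2 * f v0 ^ 2) := by
      rw [ha, Real.sq_sqrt (by positivity)]
    have hfa : ∀ v, (a * f v) ^ 2 ≤ 1 / 2 := by
      intro v
      rw [mul_pow, ha2]
      have h6 := hmax v (Finset.mem_univ _)
      rw [div_mul_eq_mul_div, one_mul, div_le_div_iff₀ (by positivity) (by norm_num)]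
      linarith
    have hN2 : N2 (fun v => a * f v) = a ^ 2 * N2 f := by
      unfold N2
      rw [Finset.mul_sum]
      apply Finset.sum_congr rfl
      intro v _
      ring
    have hqa : q G (fun v => a * f v) = a ^ 2 * q G f := by
      unfold q
      rw [bb_smul_left, bb_comm, bb_smul_left]
      ring
    refine ⟨(fun v => a * f v) :: L, ?_, ?_, Or.inr ?_⟩
    · intro v
      rw [List.map_cons, List.sum_cons]
      by_cases hv : v ∈ U
      · have h6 := hv
        rw [hUd, Finset.mem_filter] at h6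
        have h7 := hfa v
        linarith [h6.2]
      · have h6 : (a * f v) ^ 2 = 0 := by
          rw [hf1 v hv]
          ring
        simp only
        rw [h6]
        linarith [h1 v]
    · rw [List.map_cons, List.sum_cons, List.map_cons, List.sum_cons, hqa, hN2]
      have h6 := mul_le_mul_of_nonneg_left hf3 (sq_nonneg a)
      linarith
    · rw [List.map_cons, List.sum_cons, hN2]
      have h6 : 1 / 2 ≤ a ^ 2 * N2 f := by
        have h7 : f v0 ^ 2 ≤ N2 f := by
          unfold N2
          exact Finset.single_le_sum (f := fun v => f v ^ 2) (fun v _ => sq_nonneg _)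
            (Finset.mem_univ v0)
        have h8 : a ^ 2 * f v0 ^ 2 = 1 / 2 := by
          rw [ha2, div_mul_eq_mul_div, one_mul, div_eq_div_iff (by positivity) (by norm_num)]
          ring
        have h9 := mul_le_mul_of_nonneg_left h7 (sq_nonneg a)
        linarith
      push_cast
      linarith

end Pool.Agent.R50.MC
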