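import Pool.Agent.R50.LO.Ruzsa

set_option autoImplicit false

/-!
# The adjacency form and a spectral inequality
-/

namespace Pool.Agent.R50.MC

open Finset Pool.Agent.Y394.AT

/-- sum of squares -/
noncomputable def N2 {V : Type} [Fintype V] (f : V → ℝ) : ℝ := ∑ v, f v ^ 2

open Classical in
/-- the adjacency form, polarised -/
noncomputable def bb {V : Type} [Fintype V] (G : SimpleGraph V) (f g : V → ℝ) : ℝ :=
  ∑ v, ∑ w, if G.Adj v w then f v * g w else 0

/-- the adjacency form -/
noncomputable def q {V : Type} [Fintype V] (G : SimpleGraph V) (f : V → ℝ) : ℝ := bb G f f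

variable {V : Type} [Fintype V] {G : SimpleGraph V}

theorem N2_nonneg (f : V → ℝ) : 0 ≤ N2 f := Finset.sum_nonneg fun _ _ => sq_nonneg _

theorem bb_comm (f g : V → ℝ) : bb G f g = bb G g f := by
  classical
  unfold bb
  rw [Finset.sum_comm]
  apply Finset.sum_congr rfl
  intro v _
  apply Finset.sum_congr rfl
  intro w _
  by_cases h : G.Adj v w
  · rw [if_pos h, if_pos h.symm, mul_comm]
  · rw [if_neg h, if_neg (fun h' => h h'.symm)]

theorem bb_add_left (f f' g : V → ℝ) : bb G (fun v => f v + f' v) g = bb G f g + bb G f' g := by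
  classical
  unfold bb
  rw [← Finset.sum_add_distrib]
  apply Finset.sum_congr rfl
  intro v _
  rw [← Finset.sum_add_distrib]
  apply Finset.sum_congr rfl
  intro w _
  split_ifs
  · ring
  · ring

theorem bb_smul_left (t : ℝ) (f g : V → ℝ) : bb G (fun v => t * f v) g = t * bb G f g := by
  classical
  unfold bb
  rw [Finset.mul_sum]
  apply Finset.sum_congr rfl
  intro v _
  rw [Finset.mul_sum]
  apply Finset.sum_congr rfl
  intro w _
  split_ifs
  · ring
  · ring

theorem q_add (g h : V → ℝ) (t : ℝ) :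
    q G (fun v => g v + t * h v) = q G g + 2 * t * bb G g h + t ^ 2 * q G h := by
  unfold q
  rw [bb_add_left, bb_smul_left, bb_comm g, bb_comm h, bb_add_left, bb_add_left, bb_smul_left,
    bb_smul_left, bb_comm h g]
  ring

theorem bb_eq (f g : V → ℝ) : bb G f g = ∑ v, f v * ∑ w ∈ nb G v, g w := by
  classical
  unfold bb
  apply Finset.sum_congr rfl
  intro v _
  rw [Finset.mul_sum, ← Finset.sum_filter]
  apply Finset.sum_congr _ (fun _ _ => rfl)
  ext w
  rw [mem_nb, Finset.mem_filter]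
  simp

open Classical in
theorem q_le {d : ℝ} (hd : ∀ v, ((nb G v).card : ℝ) ≤ d) (f : V → ℝ) : q G f ≤ d * N2 f := by
  have h1 : q G f ≤ ∑ v, ∑ w, if G.Adj v w then (f v ^ 2 + f w ^ 2) / 2 else 0 := by
    unfold q bb
    apply Finset.sum_le_sum
    intro v _
    apply Finset.sum_le_sum
    intro w _
    split_ifs
    · nlinarith [sq_nonneg (f v - f w)]
    · exact le_refl _
  have h2 : ∑ v, ∑ w, (if G.Adj v w then f v ^ 2 else 0) = ∑ v, ((nb G v).card : ℝ) * f v ^ 2 := by
    apply Finset.sum_congr rfl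
    intro v _
    rw [← Finset.sum_filter, Finset.sum_const, nsmul_eq_mul]
    congr 2
  have h3 : ∑ v, ∑ w, (if G.Adj v w then f w ^ 2 else 0) =
      ∑ v, ∑ w, (if G.Adj v w then f v ^ 2 else 0) := by
    rw [Finset.sum_comm]
    apply Finset.sum_congr rfl
    intro v _
    apply Finset.sum_congr rfl
    intro w _
    by_cases h : G.Adj v w
    · rw [if_pos h, if_pos h.symm]
    · rw [if_neg h, if_neg (fun h' => h h'.symm)]
  have h4 : ∑ v, ∑ w, (if G.Adj v w then (f v ^ 2 + f w ^ 2) / 2 else 0) =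
      ((∑ v, ∑ w, (if G.Adj v w then f v ^ 2 else 0)) +
        ∑ v, ∑ w, (if G.Adj v w then f w ^ 2 else 0)) / 2 := by
    rw [← Finset.sum_add_distrib, Finset.sum_div]
    apply Finset.sum_congr rfl
    intro v _
    rw [← Finset.sum_add_distrib, Finset.sum_div]
    apply Finset.sum_congr rfl
    intro w _
    split_ifs
    · ring
    · ring
  rw [h4, h3, h2] at h1
  have h5 : ∑ v, ((nb G v).card : ℝ) * f v ^ 2 ≤ d * N2 f := by
    unfold N2
    rw [Finset.mul_sum]
    exact Finset.sum_le_sum fun v _ => mul_le_mul_of_nonneg_right (hd v) (sq_nonneg _)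
  linarith

theorem N2_add (g h : V → ℝ) (t : ℝ) :
    N2 (fun v => g v + t * h v) = N2 g + 2 * t * ∑ v, g v * h v + t ^ 2 * N2 h := by
  unfold N2
  rw [Finset.mul_sum, Finset.mul_sum, ← Finset.sum_add_distrib, ← Finset.sum_add_distrib]
  apply Finset.sum_congr rfl
  intro v _
  ring

open Classical in
/-- **The spectral inequality.** -/
theorem spec {d e : ℝ} (hd0 : 0 < d) (he : 0 ≤ e) (hd : ∀ v, ((nb G v).card : ℝ) ≤ d)
    (hq : ∀ f : V → ℝ, -e * N2 f ≤ q G f) (S : Finset V) :
    ∑ v, (((nb G v ∩ S).card : ℝ)) ^ 2 ≤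
      (d + e) * (∑ v ∈ S, ((nb G v ∩ S).card : ℝ) + e * S.card) := by
  obtain ⟨g, hg⟩ : ∃ g : V → ℝ, g = fun v => if v ∈ S then 1 else 0 := ⟨_, rfl⟩
  obtain ⟨a, ha⟩ : ∃ a : V → ℝ, a = fun v => ((nb G v ∩ S).card : ℝ) := ⟨_, rfl⟩
  obtain ⟨h, hh⟩ : ∃ h : V → ℝ, h = fun v => a v + e * g v := ⟨_, rfl⟩
  have hL : 0 < d + e := by linarith
  have hag : ∀ v, ∑ w ∈ nb G v, g w = a v := by
    intro v
    rw [hg, ha]
    simp only
    rw [← Finset.sum_filter, Finset.filter_mem_eq_inter, Finset.sum_const, nsmul_eq_mul, mul_one]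
  have h1 : bb G g h + e * ∑ v, g v * h v = N2 h := by
    rw [bb_comm, bb_eq, Finset.mul_sum, ← Finset.sum_add_distrib]
    unfold N2
    apply Finset.sum_congr rfl
    intro v _
    rw [hag]
    have : h v = a v + e * g v := by rw [hh]
    rw [this]
    ring
  have h2 := hq (fun v => g v + (-1 / (d + e)) * h v)
  rw [q_add, N2_add] at h2
  have h3 := q_le hd h
  have h4 : q G g = ∑ v ∈ S, ((nb G v ∩ S).card : ℝ) := by
    unfold q
    rw [bb_eq]
    have : ∀ v, g v * ∑ w ∈ nb G v, g w = if v ∈ S then a v else 0 := by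
      intro v
      rw [hag, hg]
      simp
    rw [Finset.sum_congr rfl (fun v _ => this v), ← Finset.sum_filter]
    rw [ha]
    simp
  have h5 : N2 g = S.card := by
    unfold N2
    rw [hg]
    simp
  have h6 : ∑ v, (((nb G v ∩ S).card : ℝ)) ^ 2 ≤ N2 h := by
    unfold N2
    apply Finset.sum_le_sum
    intro v _
    rw [hh, ha]
    simp only
    have h7 : (0 : ℝ) ≤ ((nb G v ∩ S).card : ℝ) := Nat.cast_nonneg _
    have h8 : 0 ≤ e * g v := by
      apply mul_nonneg he
      rw [hg]
      simp only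
      split_ifs <;> norm_num
    exact pow_le_pow_left₀ h7 (by linarith) 2
  rw [← h4, ← h5]
  refine h6.trans ?_
  -- the quadratic inequality at `t = -1/L`
  have h7 : (-1 / (d + e)) ^ 2 * q G h + e * ((-1 / (d + e)) ^ 2 * N2 h) ≤ N2 h / (d + e) := by
    have e1 : (-1 / (d + e)) ^ 2 * q G h + e * ((-1 / (d + e)) ^ 2 * N2 h) =
        (q G h + e * N2 h) / (d + e) ^ 2 := by
      field_simp
    rw [e1]
    have e2 : N2 h / (d + e) = ((d + e) * N2 h) / (d + e) ^ 2 := by
      field_simp
    rw [e2]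
    apply div_le_div_of_nonneg_right _ (by positivity)
    linarith
  have h8 : 2 * (-1 / (d + e)) * bb G g h + e * (2 * (-1 / (d + e)) * ∑ v, g v * h v) =
      -2 * N2 h / (d + e) := by
    rw [← h1]
    field_simp
    ring
  have h9 : N2 h / (d + e) ≤ q G g + e * N2 g := by
    have e3 : -2 * N2 h / (d + e) = -2 * (N2 h / (d + e)) := by ring
    rw [e3] at h8
    nlinarith
  rw [div_le_iff₀ hL] at h9
  linarith

/-! ### Induced subgraphs -/

/-- induced subgraph -/
def ind (G : SimpleGraph V) (U : Finset V) : SimpleGraph {x // x ∈ U} := G.comap (fun x => x.1)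

theorem sum_ext (U : Finset V) (F : V → ℝ) (h : ∀ v, v ∉ U → F v = 0) :
    ∑ v, F v = ∑ x : {x // x ∈ U}, F x.1 := by
  rw [Finset.sum_coe_sort U F]
  exact (Finset.sum_subset (Finset.subset_univ U) (fun v _ hv => h v hv)).symm

open Classical in
/-- extension by zero -/
noncomputable def ext0 (U : Finset V) (f : {x // x ∈ U} → ℝ) (v : V) : ℝ :=
  if h : v ∈ U then f ⟨v, h⟩ else 0

theorem ext0_of (U : Finset V) (f : {x // x ∈ U} → ℝ) (x : {x // x ∈ U}) :
    ext0 U f x.1 = f x := by
  unfold ext0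
  rw [dif_pos x.2]

theorem ext0_not (U : Finset V) (f : {x // x ∈ U} → ℝ) {v : V} (hv : v ∉ U) :
    ext0 U f v = 0 := by
  unfold ext0
  rw [dif_neg hv]

theorem N2_ext (U : Finset V) (f : {x // x ∈ U} → ℝ) : N2 (ext0 U f) = N2 f := by
  unfold N2
  rw [sum_ext U]
  · apply Finset.sum_congr rfl
    intro x _
    rw [ext0_of]
  · intro v hv
    rw [ext0_not U f hv]
    ring

theorem q_ext (U : Finset V) (f : {x // x ∈ U} → ℝ) : q G (ext0 U f) = q (ind G U) f := by
  classical
  unfold q bb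
  rw [sum_ext U]
  · apply Finset.sum_congr rfl
    intro x _
    rw [sum_ext U]
    · apply Finset.sum_congr rfl
      intro y _
      rw [ext0_of, ext0_of]
      by_cases h : G.Adj x.1 y.1
      · rw [if_pos h, if_pos (show (ind G U).Adj x y from h)]
      · rw [if_neg h, if_neg (show ¬ (ind G U).Adj x y from h)]
    · intro v hv
      rw [ext0_not U f hv]
      simp
  · intro v hv
    apply Finset.sum_eq_zero
    intro w _
    rw [ext0_not U f hv]
    simp

open Classical in
theorem nb_ind (U : Finset V) (x : {x // x ∈ U}) :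
    (nb (ind G U) x).card = (nb G x.1 ∩ U).card := by
  rw [← Finset.card_map ⟨Subtype.val, Subtype.val_injective⟩]
  congr 1
  ext w
  rw [Finset.mem_map, Finset.mem_inter, mem_nb]
  constructor
  · rintro ⟨y, hy, rfl⟩
    have h3 : (ind G U).Adj x y := (mem_nb (ind G U) x y).1 hy
    exact ⟨h3, y.2⟩
  · rintro ⟨h1, h2⟩
    exact ⟨⟨w, h2⟩, (mem_nb _ _ _).2 h1, rfl⟩

/-- the induced subgraph embeds -/
def indEmb (G : SimpleGraph V) (U : Finset V) : ind G U ↪g G where
  toFun := Subtype.val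
  inj' := Subtype.val_injective
  map_rel_iff' := Iff.rfl

end Pool.Agent.R50.MC
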